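import Pool.Agent.Helper44.SDLat.Defs
import Pool.Agent.Helper44.SDLat.Main

/-!
A locally finite semidistributive lattice, generating a variety of semidistributive lattices, that
embeds within its variety into no algebraic spatial lattice.
-/

namespace Pool.Agent.Results.MP_28cd81_al.NotInAlgebraicSpatial

open Pool.Agent.Helper44.SDLat

/-- There is a semidistributive lattice `L` that embeds within its variety into no algebraic
spatial lattice; moreover `L` is locally finite and every lattice in `V(L)` is semidistributive. -/
theorem result.{u} :
    ∃ (L : Type) (_ : Lattice L),
      Semidistributive L ∧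
      LocallyFiniteLat L ∧
      (∀ (M : Type u) [Lattice M], InVariety L M → Semidistributive M) ∧
      (∀ (K : Type u) [CompleteLattice K], IsCompactlyGenerated K → Spatial K → InVariety L K →
        ¬ ∃ f : LatticeHom L K, Function.Injective f) :=
  ⟨Cl, inferInstance, cl_sd, locFin, fun _ _ h => variety_sd h,
    fun K _ hK hS H ⟨f, hf⟩ => no_embedding K hK hS H f hf⟩

end Pool.Agent.Results.MP_28cd81_al.NotInAlgebraicSpatial
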